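import Pool.Agent.Y382.DN.Krr
import Pool.Agent.Y429.DN.DES

/-!
# Symmetric designs decided by decomposable circuits

The points and the blocks of a symmetric `(v, k, lam)` design are labelled in any way by strings of
`m` bits, `2 ^ m ≤ 2 v`, and a DNNF (decomposable negation normal form: the conjuncts of a
conjunction have no variable in common, disjunctions are unrestricted; this includes
nondeterministic read-once branching programs, which may read the bits in a different order on
every path) with `s` gates, whose leaves may be arbitrary functions of `w` bits, decides which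
pairs of strings belong to an incident pair of a point and a block. Then
`k ≤ 4 lam ^ 3 2 ^ w s` and `v ≤ 1 + 16 lam ^ 5 4 ^ w s ^ 2`: for fixed `lam`, circuits with `s`
gates decide only finitely many symmetric designs, and those with `v` points need a number of gates
proportional to the square root of `v`.
-/

set_option autoImplicit false

namespace Pool.Agent.Results.MP_c38931_co.DecomposableCircuits

open Pool.Agent.H607R2.BW Pool.Agent.Y382.DN

theorem result :
    ∀ (lam m s w v k : ℕ) (B : Fin v → Finset (Fin v)) (p b : Fin v → Str m), 1 ≤ lam →
      (∀ i, (B i).card = k) →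
      (∀ x y : Fin v, x ≠ y →
        (Finset.univ.filter (fun i => x ∈ B i ∧ y ∈ B i)).card = lam) →
      Function.Injective p → Function.Injective b → 2 ^ m ≤ 2 * v →
      PairDnnf m s w (fun x y => ∃ i j, i ∈ B j ∧ x = p i ∧ y = b j) →
      k ≤ 4 * lam ^ 3 * 2 ^ w * s ∧ v ≤ 1 + 16 * lam ^ 5 * 4 ^ w * s ^ 2 :=
  Pool.Agent.Y429.DN.DES.t_DES t_KRR

end Pool.Agent.Results.MP_c38931_co.DecomposableCircuits
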