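import Pool.Agent.Y344.HD.Grp

set_option autoImplicit false

/-!
# Fixed `lam`: point-transitive automorphism groups that need not be solvable

The starting results say that for fixed `lam` the block sizes of the symmetric `2-(v, k, lam)` designs
with a regular or with a solvable point-transitive group of automorphisms are rare. Here the group
`H` is an arbitrary point-transitive group which has one of the following properties.

* `H` has an invariant partition of the points into `m` classes with `r ^ a ∣ m < r ^ (a + 1)` for a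
  prime `r ≤ k ^ (1 - ε)` and some `a ≥ 1` (for instance `m ≤ k ^ (1 - ε)` is a prime power, or twice
  or three times a power of a larger prime; or `H` has an intransitive normal subgroup with at most
  `k ^ (1 - ε)` orbits and with solvable quotient).
* Some prime divisor `q ≤ k ^ (1 - ε)` of `v` does not divide the order of a point stabilizer.
* The Sylow `q`-subgroups of `H` are cyclic for some prime divisor `q ≤ k ^ (1 - ε)` of `v`.
* The order of a point stabilizer has at most `c` prime divisors.

Proof: `H` contains a fixed-point-free element whose order is a power of a prime `q` which divides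
`v` and is at most `k ^ (1 - ε)` or bounded; by the starting result `OddFixedPoints` this happens
only for `k` in a set of density zero. For the last property one uses that for almost all `k` the
number `v` has more than `c` bounded prime divisors.
-/

namespace Pool.Agent.Results.MP_c38931_co.PointTransitiveGroups

open Filter Topology

/-- The blocks `B i` (`i : Fin v`) form a symmetric `2-(v, k, lam)` design on the points `Fin v` with
`2 ≤ k < v`, and `H` is a group of automorphisms of the design acting transitively on the points. -/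
structure IsPointTransitiveDesign (v k lam : ℕ) (B : Fin v → Finset (Fin v))
    (H : Subgroup (Equiv.Perm (Fin v))) : Prop where
  two_le : 2 ≤ k
  lt : k < v
  size : ∀ i, (B i).card = k
  pair : ∀ x y : Fin v, x ≠ y →
    (Finset.univ.filter (fun i => x ∈ B i ∧ y ∈ B i)).card = lam
  transitive : ∀ x y : Fin v, ∃ h ∈ H, h x = y
  aut : ∀ h ∈ H, ∀ i, ∃ j, (B i).image h = B j

/-- `c` is the class map of a partition of the points into `m` nonempty classes which is invariant
under `H`, and `r ^ a ∣ m < r ^ (a + 1)` for some prime `r ≤ k ^ (1 - ε)` and some `a ≥ 1`. -/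
def DominantPrimePower (ε : ℝ) (v k : ℕ) (H : Subgroup (Equiv.Perm (Fin v))) : Prop :=
  ∃ (m r a : ℕ) (c : Fin v → Fin m), Function.Surjective c ∧
    (∀ h ∈ H, ∀ x y, c x = c y → c (h x) = c (h y)) ∧
      r.Prime ∧ (r : ℝ) ≤ (k : ℝ) ^ (1 - ε) ∧ 1 ≤ a ∧ r ^ a ∣ m ∧ m < r ^ (a + 1)

/-- Some prime divisor `q ≤ k ^ (1 - ε)` of `v` does not divide the order of the stabilizer of some
point. -/
def PrimeOutsideStabilizer (ε : ℝ) (v k : ℕ) (H : Subgroup (Equiv.Perm (Fin v))) : Prop :=
  ∃ (q : ℕ) (x : Fin v), q.Prime ∧ (q : ℝ) ≤ (k : ℝ) ^ (1 - ε) ∧ q ∣ v ∧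
    ¬ q ∣ Nat.card (MulAction.stabilizer H x)

/-- The Sylow `q`-subgroups of `H` are cyclic for some prime divisor `q ≤ k ^ (1 - ε)` of `v`. -/
def CyclicSylow (ε : ℝ) (v k : ℕ) (H : Subgroup (Equiv.Perm (Fin v))) : Prop :=
  ∃ (q : ℕ) (P : Sylow q H), q.Prime ∧ (q : ℝ) ≤ (k : ℝ) ^ (1 - ε) ∧ q ∣ v ∧ IsCyclic P

/-- The order of the stabilizer of some point has at most `c` prime divisors. -/
def FewPrimes (c v : ℕ) (H : Subgroup (Equiv.Perm (Fin v))) : Prop :=
  ∃ x : Fin v, (Nat.card (MulAction.stabilizer H x)).primeFactors.card ≤ c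

/-- Let `lam ≥ 1`, `0 < ε < 1` and `c` be given. The set of all `k` for which some symmetric
`2-(v, k, lam)` design with `2 ≤ k < v` has a point-transitive group `H` of automorphisms with
`DominantPrimePower ε v k H`, `PrimeOutsideStabilizer ε v k H`, `CyclicSylow ε v k H` or
`FewPrimes c v H` has natural density zero. -/
theorem result (lam : ℕ) (hlam : 1 ≤ lam) (ε : ℝ) (hε : 0 < ε) (hε1 : ε < 1) (c : ℕ) :
    Tendsto (fun N : ℕ =>
      ({k : ℕ | k ≤ N ∧ ∃ (v : ℕ) (B : Fin v → Finset (Fin v))
        (H : Subgroup (Equiv.Perm (Fin v))), IsPointTransitiveDesign v k lam B H ∧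
          (DominantPrimePower ε v k H ∨ PrimeOutsideStabilizer ε v k H ∨ CyclicSylow ε v k H ∨
            FewPrimes c v H)}.ncard : ℝ) / (N : ℝ))
      atTop (𝓝 0) := by
  classical
  have main : ∀ η : ℝ, 0 < η → ∃ N0 : ℕ, ∀ N : ℕ, N0 ≤ N →
      ({k : ℕ | k ≤ N ∧ ∃ (v : ℕ) (B : Fin v → Finset (Fin v))
        (H : Subgroup (Equiv.Perm (Fin v))), IsPointTransitiveDesign v k lam B H ∧
          (DominantPrimePower ε v k H ∨ PrimeOutsideStabilizer ε v k H ∨ CyclicSylow ε v k H ∨
            FewPrimes c v H)}.ncard : ℝ) ≤ η * N := by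
    intro η hη
    obtain ⟨K, hK, N1, hN1⟩ := Pool.Agent.Y344.HD.many hlam c 0 (η / 2) (by positivity)
    obtain ⟨N2, hN2⟩ := Pool.Agent.W854.FA.small_KE lam hlam (K.sup id) ε hε hε1 (η / 2)
      (by positivity)
    refine ⟨max N1 N2, fun N hN => ?_⟩
    have e1 := hN1 N ((le_max_left _ _).trans hN)
    have e2 := hN2 N ((le_max_right _ _).trans hN)
    have hsub : {k : ℕ | k ≤ N ∧ ∃ (v : ℕ) (B : Fin v → Finset (Fin v))
        (H : Subgroup (Equiv.Perm (Fin v))), IsPointTransitiveDesign v k lam B H ∧
          (DominantPrimePower ε v k H ∨ PrimeOutsideStabilizer ε v k H ∨ CyclicSylow ε v k H ∨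
            FewPrimes c v H)} ⊆
        {k : ℕ | k ≤ N ∧ Pool.Agent.W854.FA.KE lam (K.sup id) ε k} ∪
        {k : ℕ | lam ≤ k ∧ k - lam ∈ (Finset.range (N + 1)).filter (fun n =>
          (K.filter (fun p : ℕ => (p : ℤ) ∣ Pool.Agent.H951R4.OD.fl lam n)).card ≤ c)} := by
      rintro k ⟨hkN, v, B, H, hd, hc⟩
      have hv : 2 ≤ v := by
        have h1 := hd.two_le
        have h2 := hd.lt
        omega
      rcases hc with ⟨m, r, a, f, hc1, hc2, hr, hrk, ha, h1, h2⟩ | ⟨q, x, hq, hqk, hqv, hx⟩ |
        ⟨q, P, hq, hqk, hqv, hP⟩ | ⟨x, hx⟩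
      · left
        obtain ⟨σ, hσ, ⟨b, hb⟩, hfree⟩ := Pool.Agent.TH669.PT.exists_of_partition
          (by omega) H hd.transitive f hc1 hc2 hr ha h1 h2
        exact ⟨hkN, Pool.Agent.Y344.HD.keOf hd.two_le hd.lt hd.size hd.pair (hd.aut σ hσ) hr
          (Or.inl hrk) hb hfree⟩
      · left
        obtain ⟨σ, hσ, ⟨b, hb⟩, hfree⟩ := Pool.Agent.TH669.PT.exists_of_stabilizer
          H hd.transitive hq hqv x hx
        exact ⟨hkN, Pool.Agent.Y344.HD.keOf hd.two_le hd.lt hd.size hd.pair (hd.aut σ hσ) hq
          (Or.inl hqk) hb hfree⟩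
      · left
        obtain ⟨σ, hσ, ⟨b, hb⟩, hfree⟩ := Pool.Agent.Y344.HD.exists_of_cyclic
          H hd.transitive hq hqv P hP
        exact ⟨hkN, Pool.Agent.Y344.HD.keOf hd.two_le hd.lt hd.size hd.pair (hd.aut σ hσ) hq
          (Or.inl hqk) hb hfree⟩
      · obtain ⟨hlk, -, -⟩ := Pool.Agent.H951R4.OD.design_facts hv hlam hd.lt hd.size hd.pair
        obtain ⟨-, hcount⟩ := Pool.Agent.H951R4.OD.repl v k lam hv hlam B hd.size hd.pair
        have hfl : Pool.Agent.H951R4.OD.fl lam (k - lam) = ((lam * v : ℕ) : ℤ) := by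
          unfold Pool.Agent.H951R4.OD.fl
          have h1 : (k : ℤ) * k = lam * ((v - 1 : ℕ) : ℤ) + k := by exact_mod_cast hcount
          rw [Nat.cast_sub (by omega)] at h1
          rw [Nat.cast_sub hlk.le]
          push_cast at h1 ⊢
          nlinarith
        by_cases hcd : (K.filter (fun p : ℕ =>
            (p : ℤ) ∣ Pool.Agent.H951R4.OD.fl lam (k - lam))).card ≤ c
        · right
          refine ⟨hlk.le, ?_⟩
          rw [Finset.mem_filter, Finset.mem_range]
          exact ⟨by omega, hcd⟩
        · left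
          have hlt : (Nat.card (MulAction.stabilizer H x)).primeFactors.card <
              (K.filter (fun p : ℕ =>
                (p : ℤ) ∣ Pool.Agent.H951R4.OD.fl lam (k - lam))).card := by omega
          obtain ⟨q, hqK, hqn⟩ := Finset.exists_mem_notMem_of_card_lt_card hlt
          rw [Finset.mem_filter] at hqK
          obtain ⟨hqK, hqd⟩ := hqK
          obtain ⟨hq, -, hqc⟩ := hK q hqK
          rw [hfl] at hqd
          have hqd' : q ∣ lam * v := by exact_mod_cast hqd
          have hql : ¬ q ∣ lam := fun h => hqc (by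
            unfold Pool.Agent.H951R4.OD.cl
            exact dvd_mul_of_dvd_left (dvd_mul_of_dvd_right h 2) _)
          have hqv : q ∣ v := ((Nat.Prime.dvd_mul hq).1 hqd').resolve_left hql
          have hqx : ¬ q ∣ Nat.card (MulAction.stabilizer H x) := fun h =>
            hqn (Nat.mem_primeFactors.2 ⟨hq, h, Nat.card_pos.ne'⟩)
          obtain ⟨σ, hσ, ⟨b, hb⟩, hfree⟩ := Pool.Agent.TH669.PT.exists_of_stabilizer
            H hd.transitive hq hqv x hqx
          refine ⟨hkN, Pool.Agent.Y344.HD.keOf hd.two_le hd.lt hd.size hd.pair (hd.aut σ hσ) hq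
            (Or.inr ?_) hb hfree⟩
          have := Finset.le_sup (f := id) hqK
          simpa using this
    have hfin : {k : ℕ | lam ≤ k ∧ k - lam ∈ (Finset.range (N + 1)).filter (fun n =>
          (K.filter (fun p : ℕ => (p : ℤ) ∣ Pool.Agent.H951R4.OD.fl lam n)).card ≤ c)} ⊆
        (((Finset.range (N + 1)).filter (fun n =>
          (K.filter (fun p : ℕ => (p : ℤ) ∣ Pool.Agent.H951R4.OD.fl lam n)).card ≤ c)).image
            (fun n => n + lam) : Finset ℕ) := by
      rintro k ⟨h1, h2⟩
      rw [Finset.mem_coe, Finset.mem_image]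
      exact ⟨k - lam, h2, by omega⟩
    have h5 := Set.ncard_le_ncard hfin (Finset.finite_toSet _)
    rw [Set.ncard_coe_finset] at h5
    have h6 := h5.trans Finset.card_image_le
    have h7 := (Set.ncard_le_ncard hsub ((Pool.Agent.H634R3.AA.fin_le N _).union
      ((Finset.finite_toSet _).subset hfin))).trans (Set.ncard_union_le _ _)
    have h8 := (Nat.cast_le (α := ℝ)).2 (h7.trans (Nat.add_le_add_left h6 _))
    push_cast at h8
    linarith
  rw [Metric.tendsto_nhds]
  intro η hη
  obtain ⟨N0, hN0⟩ := main (η / 2) (by positivity)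
  filter_upwards [eventually_ge_atTop N0, eventually_gt_atTop 0] with N h1 h2
  have hN : (0 : ℝ) < N := by exact_mod_cast h2
  rw [Real.dist_eq, sub_zero, abs_of_nonneg (by positivity), div_lt_iff₀ hN]
  have := hN0 N h1
  nlinarith

end Pool.Agent.Results.MP_c38931_co.PointTransitiveGroups
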