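import Pool.Agent.Y344.HD.Tr

set_option autoImplicit false

/-!
# Baer's theorem for symmetric designs, and finiteness for designs with few absolute points

A polarity of a symmetric design is a bijection `f` from the points to the blocks such that `y ∈ f x`
if and only if `x ∈ f y`; a point `x` is absolute if `x ∈ f x`. Baer (1946) proved that a polarity of
a projective plane of order `n` has at least `n + 1` absolute points. We show that a polarity of any
symmetric `2-(v, k, lam)` design has at least `k / lam` absolute points, or no absolute points at all;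
in the second case `k ≤ lam ^ 2 + lam` (this is the case of the `(v, k, lam)`-graphs). So for
fixed `lam` and `c` there are only finitely many symmetric designs with a polarity with at most `c`
absolute points: Hall's conjecture holds for them.

Proof: counting the pairs `(y, z)` with `y, z ∈ f x` and `y ∈ f z` and exchanging `y` and `z` one finds
that the blocks `f x` with `x` not absolute contain a number of absolute points which is congruent
to `lam * k` modulo two. If `lam * k` is even, each of the `k` blocks through an absolute point `p`,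
except `f p`, contains a further absolute point; if `lam * k` is odd, every block contains an absolute
point. If there are no absolute points, the trace of the incidence matrix is zero, and its eigenvalues
are `k` and `± √(k - lam)`.
-/

namespace Pool.Agent.Results.MP_c38931_co.PolaritiesFewAbsolutePoints

/-- The blocks `B i` (`i : Fin v`) form a symmetric `2-(v, k, lam)` design on the points `Fin v` with
`2 ≤ k < v`. -/
structure IsSymmetricDesign (v k lam : ℕ) (B : Fin v → Finset (Fin v)) : Prop where
  two_le : 2 ≤ k
  lt : k < v
  size : ∀ i, (B i).card = k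
  pair : ∀ x y : Fin v, x ≠ y →
    (Finset.univ.filter (fun i => x ∈ B i ∧ y ∈ B i)).card = lam

/-- The bijection which maps the point `x` to the block with the number `f x` is a polarity. -/
def IsPolarity {v : ℕ} (B : Fin v → Finset (Fin v)) (f : Equiv.Perm (Fin v)) : Prop :=
  ∀ x y, y ∈ B (f x) ↔ x ∈ B (f y)

/-- The absolute points of the polarity. -/
def absolutePoints {v : ℕ} (B : Fin v → Finset (Fin v)) (f : Equiv.Perm (Fin v)) :
    Finset (Fin v) :=
  Finset.univ.filter (fun x => x ∈ B (f x))

/-- (1) Let `u` be the number of the absolute points of a polarity of a symmetric `2-(v, k, lam)`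
design with `2 ≤ k < v`. Then either `u = 0` and `k ≤ lam ^ 2 + lam`, or `u > 0` and `k ≤ lam * u`.
Moreover `k - lam` divides `(u - lam) ^ 2`. (2) For all `lam` and `c` there are only finitely many
`v` for which there is a symmetric `2-(v, k, lam)` design with `2 ≤ k < v` and with a polarity which
has at most `c` absolute points. -/
theorem result :
    (∀ (v k lam : ℕ) (B : Fin v → Finset (Fin v)) (f : Equiv.Perm (Fin v)),
      IsSymmetricDesign v k lam B → IsPolarity B f →
      (((absolutePoints B f).card = 0 ∧ k ≤ lam ^ 2 + lam) ∨
        (0 < (absolutePoints B f).card ∧ k ≤ lam * (absolutePoints B f).card)) ∧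
      ((k : ℤ) - lam) ∣ (((absolutePoints B f).card : ℤ) - lam) ^ 2) ∧
    (∀ lam c : ℕ, {v : ℕ | ∃ (k : ℕ) (B : Fin v → Finset (Fin v)) (f : Equiv.Perm (Fin v)),
      IsSymmetricDesign v k lam B ∧ IsPolarity B f ∧ (absolutePoints B f).card ≤ c}.Finite) := by
  classical
  have hsy : ∀ (v k lam : ℕ) (B : Fin v → Finset (Fin v)) (f : Equiv.Perm (Fin v)),
      IsSymmetricDesign v k lam B → IsPolarity B f →
      Pool.Agent.Y344.HD.Sy v k lam (fun x => B (f x)) := by
    intro v k lam B f hd hp
    refine ⟨fun x => hd.size _, ?_, hp⟩
    intro x y hxy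
    rw [← hd.pair x y hxy]
    refine Finset.card_bij (fun z _ => f z) ?_ ?_ ?_
    · intro z hz
      rw [Finset.mem_inter] at hz
      rw [Finset.mem_filter]
      exact ⟨Finset.mem_univ _, (hp x z).1 hz.1, (hp y z).1 hz.2⟩
    · intro a _ b _ hab
      exact f.injective hab
    · intro i hi
      rw [Finset.mem_filter] at hi
      refine ⟨f.symm i, ?_, by simp⟩
      rw [Finset.mem_inter]
      constructor
      · rw [hp x, Equiv.apply_symm_apply]
        exact hi.2.1
      · rw [hp y, Equiv.apply_symm_apply]
        exact hi.2.2
  have hlam1 : ∀ (v k lam : ℕ) (B : Fin v → Finset (Fin v)) (f : Equiv.Perm (Fin v)),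
      IsSymmetricDesign v k lam B → IsPolarity B f →
      1 ≤ lam ∧ lam < k ∧ v ≤ k * k := by
    intro v k lam B f hd hp
    have h1 := Pool.Agent.Y344.HD.count (hsy v k lam B f hd hp) (by
      have := hd.lt
      omega)
    have h2 := hd.two_le
    have h3 := hd.lt
    have h4 : 1 ≤ lam := by
      by_contra hcon
      have h5 : lam = 0 := by omega
      subst h5
      have h6 : 2 * k ≤ k * k := Nat.mul_le_mul_right _ h2
      omega
    refine ⟨h4, ?_, ?_⟩
    · by_contra hcon
      push Not at hcon
      have h5 : k * k ≤ lam * (v - 1) := Nat.mul_le_mul hcon (by omega)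
      omega
    · have h5 : 1 * (v - 1) ≤ lam * (v - 1) := Nat.mul_le_mul_right _ h4
      omega
  have key : ∀ (v k lam : ℕ) (B : Fin v → Finset (Fin v)) (f : Equiv.Perm (Fin v)),
      IsSymmetricDesign v k lam B → IsPolarity B f →
      (((absolutePoints B f).card = 0 ∧ k ≤ lam ^ 2 + lam) ∨
        (0 < (absolutePoints B f).card ∧ k ≤ lam * (absolutePoints B f).card)) ∧
      ((k : ℤ) - lam) ∣ (((absolutePoints B f).card : ℤ) - lam) ^ 2 := by
    intro v k lam B f hd hp
    have hs := hsy v k lam B f hd hp
    obtain ⟨hl1, hl2, -⟩ := hlam1 v k lam B f hd hp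
    have hdvd := Pool.Agent.Y344.HD.absolute_dvd hs hd.lt (by
      have := hd.two_le
      omega)
    have hab : Pool.Agent.Y344.HD.Ab (fun x => B (f x)) = absolutePoints B f := rfl
    rw [hab] at hdvd
    refine ⟨?_, hdvd⟩
    rcases Nat.eq_zero_or_pos (absolutePoints B f).card with h0 | h0
    · left
      refine ⟨h0, ?_⟩
      rw [h0] at hdvd
      have h1 : ((k : ℤ) - lam) ∣ (lam : ℤ) ^ 2 := by
        have h2 : (((0 : ℕ) : ℤ) - lam) ^ 2 = (lam : ℤ) ^ 2 := by
          push_cast
          ring
        rwa [h2] at hdvd
      have h3 := Int.le_of_dvd (by positivity) h1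
      have h4 : (k : ℤ) ≤ lam ^ 2 + lam := by linarith
      exact_mod_cast h4
    · right
      refine ⟨h0, ?_⟩
      have h1 := Pool.Agent.Y344.HD.baer hs hl1 (Finset.card_pos.1 (by rw [hab]; exact h0))
      rwa [hab] at h1
  refine ⟨key, fun lam c => ?_⟩
  refine (Set.finite_Iic ((lam ^ 2 + lam + lam * c) * (lam ^ 2 + lam + lam * c))).subset ?_
  rintro v ⟨k, B, f, hd, hp, hc⟩
  obtain ⟨-, -, hvk⟩ := hlam1 v k lam B f hd hp
  have hk : k ≤ lam ^ 2 + lam + lam * c := by
    rcases (key v k lam B f hd hp).1 with ⟨-, h1⟩ | ⟨-, h1⟩
    · exact h1.trans (Nat.le_add_right _ _)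
    · have h2 : lam * (absolutePoints B f).card ≤ lam * c := Nat.mul_le_mul_left _ hc
      omega
  exact hvk.trans (Nat.mul_le_mul hk hk)

end Pool.Agent.Results.MP_c38931_co.PolaritiesFewAbsolutePoints
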