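import Pool.Agent.Y422.TG.DesignFirst

/-!
# Symmetric designs with a large part of small twin-width

Hall's finiteness conjecture for symmetric designs which contain a positive proportion of points and
a positive proportion of blocks whose incidence graph has bounded twin-width. More precisely, if the
incidence graph of some `a` points and some `b` blocks of a symmetric `(v, k, lam)` design has
twin-width at most `w`, then `3 k a b ≤ 4 v ^ 2 + 4 (lam + 4 w + 5) v (a + b)`. The twin-width of the
whole incidence graph is at least `2 (k - lam)`.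

The proof combines the variance of the intersection sizes of a set of points with the blocks, the
dual design (two blocks have `lam` points in common) and the bound `(t + 4 (w + 1)) n` for the number
of edges of a `K_{2,t}`-free graph with `n` vertices and twin-width at most `w`.
-/

set_option autoImplicit false

namespace Pool.Agent.Results.MP_c38931_co.TwinWidthDesigns

open Pool.Agent.Y422.TW

/-- The `v` sets `B i` of points from `Fin v` form a symmetric `2`-`(v, k, lam)` design. -/
def IsSymmetricDesign (v k lam : ℕ) (B : Fin v → Finset (Fin v)) : Prop :=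
  (∀ i, (B i).card = k) ∧
    ∀ x y : Fin v, x ≠ y → (Finset.univ.filter (fun i => x ∈ B i ∧ y ∈ B i)).card = lam

/-- The incidence graph of the points in `P` and the blocks `B j` with `j` in `Q`: a point `x` is
adjacent to a block `B j` if it lies in it; there are no other edges. -/
def incidence {v : ℕ} (B : Fin v → Finset (Fin v)) (P Q : Finset (Fin v)) :
    SimpleGraph ({x // x ∈ P} ⊕ {j // j ∈ Q}) where
  Adj a b := ∃ (x : {x // x ∈ P}) (j : {j // j ∈ Q}), x.1 ∈ B j.1 ∧
    ((a = Sum.inl x ∧ b = Sum.inr j) ∨ (a = Sum.inr j ∧ b = Sum.inl x))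
  symm := (Pool.Agent.Y422.TG.Design.incidence B P Q).symm
  loopless := (Pool.Agent.Y422.TG.Design.incidence B P Q).loopless

/-- **Main result.** -/
theorem result : ∀ (v k lam : ℕ) (B : Fin v → Finset (Fin v)), 1 ≤ lam →
    IsSymmetricDesign v k lam B →
    -- (1) the whole design
    (1 ≤ v → ∀ w : ℕ, TwinWidthLE (incidence B Finset.univ Finset.univ) w →
      2 * k ≤ w + 2 * lam) ∧
    ∀ (P Q : Finset (Fin v)) (w : ℕ), TwinWidthLE (incidence B P Q) w →
    -- (2) the general inequality
    3 * (k : ℝ) * P.card * Q.card ≤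
      4 * (v : ℝ) ^ 2 + 4 * (lam + 4 * w + 5) * v * (P.card + Q.card) ∧
    -- (3) a positive proportion of the points and of the blocks
    ∀ ε : ℝ, 0 < ε → 1 ≤ v → ε * v ≤ P.card → ε * v ≤ Q.card →
      3 * (k : ℝ) ≤ 4 / ε ^ 2 + 8 * (lam + 4 * w + 5) / ε ∧ v ≤ k ^ 2 + 1 := by
  rintro v k lam B hlam ⟨hk, hB⟩
  refine ⟨fun hv w h => ?_, fun P Q w h => ?_⟩
  · have := Pool.Agent.Y422.TG.Design.whole B hk hB hlam hv w h
    omega
  · exact ⟨Pool.Agent.Y422.TG.Design.main B hk hB hlam P Q w h,
      fun ε hε hv hP hQ => ⟨Pool.Agent.Y422.TG.Design.main_eps B hk hB hlam hv P Q w ε hε hP hQ h,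
        Pool.Agent.Y422.TG.Design.v_le B hk hB hlam hv⟩⟩

end Pool.Agent.Results.MP_c38931_co.TwinWidthDesigns
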